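import Pool.Agent.H638.IB.Fin0
import Pool.Agent.H638.IB.T_GB
import Pool.Agent.H638.IB.T_GC
import Pool.Agent.H638.IB.T_GM
import Pool.Agent.H638.IB.T_GS
import Pool.Agent.H638.IB.T_BU1
import Pool.Agent.H638.IB.T_SLAB
import Pool.Agent.H638.IB.T_MP
import Pool.Agent.H638.IB.T_HSEC
import Pool.Agent.H638.IB.T_COV
import Pool.Agent.H638.IB.T_BU2
import Pool.Agent.H638.IB.T_HP
import Pool.Agent.H638.IB.T_LCR
import Pool.Agent.H638.IB.T_HOM
import Pool.Agent.H638.IB.T_BALL
import Pool.Agent.H638.IB.T_BND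
import Pool.Agent.H638.IB.T_BUC
import Pool.Agent.H638.IB.T_BUS
import Pool.Agent.H638.IB.T_IBB
import Pool.Agent.H638.IB.T_SC
import Pool.Agent.H638.IB.T_ICOV

/-! The facts on intersection bodies used below, taken from the library (project IB). -/

set_option autoImplicit false

open Pool.Agent.H638.IB

namespace Pool.Agent.X88.BM

theorem GB : S_GB := GB_ok
theorem GC : S_GC := GC_ok
theorem GM : S_GM := GM_ok GB
theorem GS : S_GS := GS_ok
theorem BU1 : S_BU1 := BU1_ok
theorem SLAB : S_SLAB := SLAB_ok GB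
theorem MP : S_MP := MP_ok
theorem HSEC : S_HSEC := HSEC_ok SLAB MP GB
theorem COV : S_COV := COV_ok SLAB GS
theorem BU2 : S_BU2 := BU2_ok HSEC MP COV GS
theorem HP : S_HP := HP_ok
theorem LCR : S_LCR := LCR_ok
theorem HOM : S_HOM := HOM_ok
theorem BALL : S_BALL := BALL_ok
theorem BND : S_BND := BND_ok GB HOM BALL SLAB
theorem BUC : S_BUC := BUC_ok BU1 BU2 HP LCR BND
theorem BUS : S_BUS := BUS_ok BUC COV GS HOM
theorem IBB : S_IBB := IBB_ok BUS HOM BND GC

end Pool.Agent.X88.BM
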