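import Pool.Agent.H638.IB.Defs

/-! The convex hull of the unit ball and a slightly larger equatorial disc (described by its
support function). -/

set_option autoImplicit false

open MeasureTheory Set Filter Topology Metric
open scoped Pointwise RealInnerProductSpace ENNReal

open Pool.Agent.H638.IB

namespace Pool.Agent.X88.BM

/-- The body. -/
def Kb {N : ℕ} (l : ℝ) : Set (E (N + 1)) :=
  {x | ∀ (s : ℝ) (y : E N), ⟪x, mk s y⟫ ≤ max ‖mk s y‖ (l * ‖y‖)}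

theorem norm_le_mk {N : ℕ} (s : ℝ) (y : E N) : ‖y‖ ≤ ‖mk s y‖ := by
  have h := norm_mk_sq s y
  exact le_of_sq_le_sq (by nlinarith [sq_nonneg s]) (norm_nonneg _)

theorem norm_mk_zero {N : ℕ} (y : E N) : ‖mk 0 y‖ = ‖y‖ := by
  have h := norm_mk_sq 0 y
  have h2 : ‖mk 0 y‖ ^ 2 = ‖y‖ ^ 2 := by rw [h]; ring
  exact (pow_left_inj₀ (norm_nonneg _) (norm_nonneg _) two_ne_zero).1 h2

theorem ball_sub {N : ℕ} (l : ℝ) : closedBall (0 : E (N + 1)) 1 ⊆ Kb l := by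
  intro x hx s y
  rw [mem_closedBall_zero_iff] at hx
  refine le_trans (real_inner_le_norm _ _) (le_max_of_le_left ?_)
  nlinarith [norm_nonneg (mk s y)]

theorem disc {N : ℕ} (l : ℝ) (y : E N) (hy : ‖y‖ ≤ l) : mk 0 y ∈ Kb l := by
  intro s z
  rw [inner_mk]
  refine le_max_of_le_right ?_
  have h := real_inner_le_norm y z
  nlinarith [norm_nonneg z]

theorem key {N : ℕ} (l : ℝ) (a : ℝ) (b : E N) (h : mk a b ∈ Kb l) :
    ‖mk a b‖ ≤ 1 ∨ ‖mk a b‖ ^ 2 ≤ l * ‖b‖ := by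
  have h1 := h a b
  rw [real_inner_self_eq_norm_sq] at h1
  rcases le_max_iff.1 h1 with h2 | h2
  · left
    by_contra h3
    push Not at h3
    nlinarith
  · exact Or.inr h2

theorem sub_ball {N : ℕ} (l : ℝ) (hl : 1 ≤ l) : Kb l ⊆ closedBall (0 : E (N + 1)) l := by
  intro x hx
  obtain ⟨a, b, rfl⟩ := exists_mk x
  rw [mem_closedBall_zero_iff]
  rcases key l a b hx with h | h
  · exact h.trans hl
  · have h1 := norm_le_mk a b
    by_contra h3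
    push Not at h3
    nlinarith [norm_nonneg (mk a b), norm_nonneg b]

theorem isClosed_Kb {N : ℕ} (l : ℝ) : IsClosed (Kb l : Set (E (N + 1))) := by
  unfold Kb
  simp only [Set.ofPred_forall]
  refine isClosed_iInter fun s => isClosed_iInter fun y => ?_
  exact isClosed_le (by fun_prop) continuous_const

theorem convex_Kb {N : ℕ} (l : ℝ) : Convex ℝ (Kb l : Set (E (N + 1))) := by
  unfold Kb
  simp only [Set.ofPred_forall]
  refine convex_iInter fun s => convex_iInter fun y => ?_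
  have : {x : E (N + 1) | ⟪x, mk s y⟫ ≤ max ‖mk s y‖ (l * ‖y‖)} =
      {x : E (N + 1) | (innerSL ℝ (mk s y)) x ≤ max ‖mk s y‖ (l * ‖y‖)} := by
    ext x
    simp only [Set.mem_ofPred_eq, innerSL_apply_apply, real_inner_comm]
  rw [this]
  exact convex_halfSpace_le (LinearMap.isLinear (innerSL ℝ (mk s y)).toLinearMap) _

theorem neg_Kb {N : ℕ} (l : ℝ) (x : E (N + 1)) (hx : x ∈ (Kb l : Set (E (N + 1)))) :
    -x ∈ (Kb l : Set (E (N + 1))) := by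
  intro s y
  have h := hx (-s) (-y)
  rw [← neg_mk, inner_neg_right, norm_neg, norm_neg] at h
  rw [inner_neg_left]
  exact h

theorem body_Kb {N : ℕ} (l : ℝ) (hl : 1 ≤ l) : Body (Kb l : Set (E (N + 1))) := by
  refine ⟨?_, convex_Kb l, ?_, neg_Kb l⟩
  · exact (isCompact_closedBall (0 : E (N + 1)) l).of_isClosed_subset (isClosed_Kb l)
      (sub_ball l hl)
  · refine ⟨0, mem_interior.2 ⟨ball 0 1, ?_, isOpen_ball, by simp⟩⟩
    exact ball_subset_closedBall.trans (ball_sub l)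

/-- Points of a tilted section outside the unit ball. -/
theorem outside {N : ℕ} (l : ℝ) (hl : 1 ≤ l) (v y : E N) (h : mk (-⟪v, y⟫) y ∈ Kb l)
    (h1 : 1 < ‖mk (-⟪v, y⟫) y‖) :
    l⁻¹ < ‖y‖ ∧ ‖y‖ ≤ l ∧ |⟪v, y⟫| ≤ Real.sqrt (l ^ 2 - 1) * ‖y‖ := by
  have hl0 : 0 < l := by linarith
  have h2 := key l _ _ h
  have h3 : ‖mk (-⟪v, y⟫) y‖ ^ 2 ≤ l * ‖y‖ := by
    rcases h2 with h2 | h2
    · linarith
    · exact h2
  have h4 : 1 < l * ‖y‖ := by nlinarith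
  have h5 : l⁻¹ < ‖y‖ := by
    rw [inv_lt_iff_one_lt_mul₀ hl0]
    linarith
  have h6 := norm_mk_sq (-⟪v, y⟫) y
  have h7 : ‖y‖ ≤ l := by
    have := norm_le_mk (-⟪v, y⟫) y
    have h8 := sub_ball l hl h
    rw [mem_closedBall_zero_iff] at h8
    linarith
  refine ⟨h5, h7, ?_⟩
  have h9 : (⟪v, y⟫ : ℝ) ^ 2 ≤ (l ^ 2 - 1) * ‖y‖ ^ 2 := by
    have h10 : (⟪v, y⟫ : ℝ) ^ 2 ≤ ‖y‖ * (l - ‖y‖) := by nlinarith
    have h11 : ‖y‖ * (l - ‖y‖) ≤ (l ^ 2 - 1) * ‖y‖ ^ 2 := by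
      have h12 : l - ‖y‖ ≤ (l ^ 2 - 1) * ‖y‖ := by nlinarith
      nlinarith [norm_nonneg y]
    linarith
  rw [← Real.sqrt_sq_eq_abs]
  have h13 : Real.sqrt (l ^ 2 - 1) * ‖y‖ = Real.sqrt ((l ^ 2 - 1) * ‖y‖ ^ 2) := by
    rw [Real.sqrt_mul' _ (sq_nonneg _), Real.sqrt_sq (norm_nonneg _)]
  rw [h13]
  exact Real.sqrt_le_sqrt h9

end Pool.Agent.X88.BM
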