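import Pool.Agent.X88.BM.Sec

/-! The lower bound for the Banach-Mazur distance of the intersection body of `Kb`. -/

set_option autoImplicit false

open MeasureTheory Set Filter Topology Metric
open scoped Pointwise RealInnerProductSpace ENNReal

open Pool.Agent.H638.IB

namespace Pool.Agent.X88.BM

/-- Inclusions between `T M` and balls in terms of the gauge of `M`. -/
theorem gauge_bounds {n : ℕ} (M : Set (E n)) (hM : Body M) (L : ℝ) (hL : 1 ≤ L)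
    (T : E n ≃ₗ[ℝ] E n) (h1 : closedBall 0 1 ⊆ T '' M) (h2 : T '' M ⊆ L • closedBall (0 : E n) 1)
    (x : E n) : gauge M x ≤ ‖T x‖ ∧ ‖T x‖ ≤ L * gauge M x := by
  obtain ⟨-, hmem, hpos, hhom, -⟩ := GB M hM
  rw [smul_ball L (by linarith)] at h2
  by_cases hx : x = 0
  · subst hx
    simp
  · have hTx : T x ≠ 0 := fun h => hx (by simpa using h)
    have hr : 0 < ‖T x‖ := norm_pos_iff.2 hTx
    have hg : 0 < gauge M x := hpos x hx
    constructor
    · have h3 : T (‖T x‖⁻¹ • x) ∈ closedBall (0 : E n) 1 := by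
        rw [mem_closedBall_zero_iff, map_smul, norm_smul, norm_inv, norm_norm,
          inv_mul_cancel₀ hr.ne']
      obtain ⟨z, hz, hz'⟩ := h1 h3
      have h4 : z = ‖T x‖⁻¹ • x := T.injective hz'
      rw [h4] at hz
      have h5 := (hmem _).2 hz
      rw [hhom, abs_of_pos (inv_pos.2 hr), inv_mul_le_iff₀ hr, mul_one] at h5
      exact h5
    · have h3 : (gauge M x)⁻¹ • x ∈ M := by
        rw [← hmem, hhom, abs_of_pos (inv_pos.2 hg), inv_mul_cancel₀ hg.ne']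
      have h4 := h2 (mem_image_of_mem T h3)
      rw [mem_closedBall_zero_iff, map_smul, norm_smul, norm_inv, Real.norm_eq_abs,
        abs_of_pos hg, inv_mul_le_iff₀ hg] at h4
      linarith

theorem lower {N : ℕ} (hN : 1 ≤ N) (κ : ℝ) (hκ0 : 0 < κ)
    (hκ : ∀ x : E (N + 1), x ≠ 0 → ∀ r : ℝ, 0 ≤ r → A (closedBall 0 r) x = κ * r ^ N / ‖x‖)
    (l : ℝ) (hl : 1 ≤ l) (v : E N) (hv : v ≠ 0) (U : ℝ) (hU : A (Kb l) (mk 1 v) ≤ U)
    (hU' : A (Kb l) (mk 1 (-v)) ≤ U) (L : ℝ) (hL : 1 ≤ L) (T : E (N + 1) ≃ₗ[ℝ] E (N + 1))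
    (h1 : closedBall 0 1 ⊆ T '' IB (Kb l)) (h2 : T '' IB (Kb l) ⊆ L • closedBall 0 1) :
    (U⁻¹) ^ 2 ≤ L ^ 2 * (((κ * l ^ N)⁻¹) ^ 2 + (‖v‖ / κ) ^ 2) := by
  have hl0 : 0 < l := by linarith
  have hK := body_Kb (N := N) l hl
  obtain ⟨hIB, hg⟩ := IBB hN (Kb l) hK
  have hb := gauge_bounds (IB (Kb l)) hIB L hL T h1 h2
  have hApos : ∀ x : E (N + 1), x ≠ 0 → κ / ‖x‖ ≤ A (Kb l) x := by
    intro x hx
    have h3 := (HOM (closedBall (0 : E (N + 1)) 1)).2.2 (Kb l) (ball_sub l) hK x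
    rw [hκ x hx 1 zero_le_one, one_pow, mul_one] at h3
    exact h3
  have hApos' : ∀ x : E (N + 1), x ≠ 0 → 0 < A (Kb l) x := fun x hx =>
    lt_of_lt_of_le (div_pos hκ0 (norm_pos_iff.2 hx)) (hApos x hx)
  have hU0 : 0 < U := lt_of_lt_of_le (hApos' _ (mk_one_ne v)) hU
  have hp : ∀ w : E N, A (Kb l) (mk 1 w) ≤ U → (U⁻¹) ^ 2 ≤ ‖T (mk 1 w)‖ ^ 2 := by
    intro w hw
    have h3 := (hb (mk 1 w)).1
    rw [hg _ (mk_one_ne w)] at h3
    have h4 : U⁻¹ ≤ (A (Kb l) (mk 1 w))⁻¹ := inv_anti₀ (hApos' _ (mk_one_ne w)) hw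
    exact pow_le_pow_left₀ (inv_pos.2 hU0).le (h4.trans h3) 2
  have ha : ‖T (mk 1 (0 : E N))‖ ^ 2 ≤ L ^ 2 * ((κ * l ^ N)⁻¹) ^ 2 := by
    have h3 := (hb (mk 1 (0 : E N))).2
    rw [hg _ (mk_one_ne 0), equator κ hκ l hl] at h3
    rw [← mul_pow]
    exact pow_le_pow_left₀ (norm_nonneg _) h3 2
  have hv0 : mk 0 v ≠ 0 := by
    intro h
    have h3 : ‖mk 0 v‖ = 0 := by rw [h, norm_zero]
    rw [norm_mk_zero] at h3
    exact hv (norm_eq_zero.1 h3)
  have hbv : ‖T (mk 0 v)‖ ^ 2 ≤ L ^ 2 * (‖v‖ / κ) ^ 2 := by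
    have h3 := (hb (mk 0 v)).2
    rw [hg _ hv0] at h3
    have h4 : (A (Kb l) (mk 0 v))⁻¹ ≤ ‖v‖ / κ := by
      have h5 := hApos _ hv0
      rw [norm_mk_zero] at h5
      have h6 := inv_anti₀ (div_pos hκ0 (norm_pos_iff.2 hv)) h5
      rwa [inv_div] at h6
    rw [← mul_pow]
    refine pow_le_pow_left₀ (norm_nonneg _) (h3.trans ?_) 2
    exact mul_le_mul_of_nonneg_left h4 (by linarith)
  have hpar := parallelogram_law_with_norm ℝ (T (mk 1 (0 : E N))) (T (mk 0 v))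
  rw [← map_add, ← map_sub, mk_add, mk_sub, add_zero, sub_zero, zero_add, zero_sub] at hpar
  have h5 := hp v hU
  have h6 := hp (-v) hU'
  nlinarith

/-- The cone is symmetric in `v`. -/
theorem cone_neg {N : ℕ} (v : E N) (b : ℝ) : cone (-v) b = cone v b := by
  ext y
  simp [cone, inner_neg_left]

theorem calc_lemma (N : ℕ) (hN : 1 ≤ N) (c : ℝ) (hc0 : 0 ≤ c) (hc : c < N) : ∃ s t η : ℝ,
    0 < s ∧ 0 < t ∧ 0 < η ∧ s ^ 2 * (1 + t ^ 2) = 1 ∧ ∀ᶠ l : ℝ in 𝓝[>] 1,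
      l ^ (2 * c) * ((s + (l ^ N - l⁻¹ ^ N) * η) ^ 2 * ((l⁻¹ ^ N) ^ 2 + t ^ 2)) < 1 := by
  have hN0 : (0 : ℝ) < N := by exact_mod_cast hN
  set q : ℝ := (c + N) / (2 * N) with hq
  have hq0 : 0 < q := by positivity
  have hq1 : q < 1 := by
    rw [hq, div_lt_one (by positivity)]
    linarith
  set s : ℝ := Real.sqrt q with hs
  have hs0 : 0 < s := Real.sqrt_pos.2 hq0
  have hs2 : s ^ 2 = q := Real.sq_sqrt hq0.le
  have ht' : 0 < 1 / q - 1 := by
    rw [sub_pos, lt_div_iff₀ hq0]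
    linarith
  set t : ℝ := Real.sqrt (1 / q - 1) with ht
  have ht0 : 0 < t := Real.sqrt_pos.2 ht'
  have ht2 : t ^ 2 = 1 / q - 1 := Real.sq_sqrt ht'.le
  set η : ℝ := (N - c) * s / (8 * N) with hη
  have hη0 : 0 < η := by
    rw [hη]
    have : 0 < (N : ℝ) - c := by linarith
    positivity
  have hst : s ^ 2 * (1 + t ^ 2) = 1 := by
    rw [hs2, ht2]
    field_simp
    ring
  refine ⟨s, t, η, hs0, ht0, hη0, hst, ?_⟩
  set G : ℝ → ℝ := fun l =>
    l ^ (2 * c) * ((s + (l ^ N - l⁻¹ ^ N) * η) ^ 2 * ((l⁻¹ ^ N) ^ 2 + t ^ 2)) with hG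
  have hG1 : G 1 = 1 := by
    simp only [hG, Real.one_rpow, one_pow, inv_one, sub_self, zero_mul, add_zero, one_mul]
    exact hst
  have hinv : HasDerivAt (fun l : ℝ => l⁻¹ ^ N) (-(N : ℝ)) 1 := by
    have h := (hasDerivAt_inv (one_ne_zero (α := ℝ))).pow N
    exact h.congr_deriv (by simp)
  have hpow : HasDerivAt (fun l : ℝ => l ^ N) (N : ℝ) 1 := by
    have h := hasDerivAt_pow N (1 : ℝ)
    simpa using h
  have hrp : HasDerivAt (fun l : ℝ => l ^ (2 * c)) (2 * c) 1 := by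
    have h := Real.hasDerivAt_rpow_const (x := 1) (p := 2 * c) (Or.inl one_ne_zero)
    simpa using h
  have h1 : HasDerivAt (fun l : ℝ => (s + (l ^ N - l⁻¹ ^ N) * η) ^ 2) (2 * s * (2 * N * η)) 1 := by
    have h := (((hpow.sub hinv).mul_const η).const_add s).pow 2
    refine h.congr_deriv ?_
    simp only [Pi.sub_apply, one_pow, inv_one, sub_self, zero_mul, add_zero]
    norm_num
    exact Or.inl (Or.inl (by ring))
  have h2 : HasDerivAt (fun l : ℝ => (l⁻¹ ^ N) ^ 2 + t ^ 2) (-(2 * N : ℝ)) 1 := by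
    have h := (hinv.pow 2).add_const (t ^ 2)
    refine h.congr_deriv ?_
    simp
  have h3 : HasDerivAt G (2 * c + 2 * s * (2 * N * η) * (1 + t ^ 2) - s ^ 2 * (2 * N)) 1 := by
    have h := hrp.mul (h1.mul h2)
    refine h.congr_deriv ?_
    simp only [Pi.mul_apply, Real.one_rpow, one_pow, inv_one, sub_self, zero_mul, add_zero,
      one_mul]
    have e1 : 2 * c * (s ^ 2 * (1 + t ^ 2)) = 2 * c := by rw [hst, mul_one]
    linarith [e1]
  have hneg : 2 * c + 2 * s * (2 * N * η) * (1 + t ^ 2) - s ^ 2 * (2 * N) < 0 := by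
    have h4 : 2 * s * (2 * N * η) * (1 + t ^ 2) = (N - c) / 2 := by
      have h5 : 2 * s * (2 * N * η) * (1 + t ^ 2) =
          (N - c) / 2 * (s ^ 2 * (1 + t ^ 2)) := by
        rw [hη]
        field_simp
        ring
      rw [h5, hst, mul_one]
    rw [h4, hs2, hq]
    have h6 : (c + N) / (2 * N) * (2 * N) = c + N := by field_simp
    rw [h6]
    linarith
  have h4 := (hasDerivAt_iff_tendsto_slope.1 h3).mono_left
    (nhdsWithin_mono (1 : ℝ) (fun x (hx : x ∈ Ioi (1 : ℝ)) => (ne_of_gt hx : x ≠ 1)))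
  have h5 := h4.eventually (gt_mem_nhds hneg)
  filter_upwards [h5, self_mem_nhdsWithin] with l hl1 hl2
  rw [slope_def_field, hG1] at hl1
  have h6 : (0 : ℝ) < l - 1 := sub_pos.2 hl2
  rw [div_neg_iff] at hl1
  rcases hl1 with h | h
  · linarith [h.2]
  · linarith [h.1]

end Pool.Agent.X88.BM
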