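import Pool.Agent.X88.BM.Low

/-! The intersection body operator can increase the Banach-Mazur distance to the ball. -/

set_option autoImplicit false

open MeasureTheory Set Filter Topology Metric
open scoped Pointwise RealInnerProductSpace ENNReal

open Pool.Agent.H638.IB

namespace Pool.Agent.X88.BM

theorem SC : S_SC := SC_ok
theorem ICOV : S_ICOV := ICOV_ok COV SC IBB HOM

/-- The admissible numbers in the definition of the distance to the ball. -/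
def Adm {n : ℕ} (K : Set (E n)) : Set ℝ :=
  {l : ℝ | 1 ≤ l ∧ ∃ T : E n ≃ₗ[ℝ] E n, closedBall 0 1 ⊆ T '' K ∧
    T '' K ⊆ l • closedBall (0 : E n) 1}

theorem bm_def {n : ℕ} (K : Set (E n)) : bm K (closedBall 0 1) = sInf (Adm K) := rfl

theorem bdd {n : ℕ} (K : Set (E n)) : BddBelow (Adm K) := ⟨1, fun _ h => h.1⟩

theorem adm_nonempty {n : ℕ} (K : Set (E n)) (hK : Body K) : (Adm K).Nonempty := by
  obtain ⟨⟨r, R, hr, hR, h1, h2⟩, -⟩ := GB K hK
  set T : E n ≃ₗ[ℝ] E n := LinearEquiv.smulOfNeZero ℝ (E n) r⁻¹ (inv_ne_zero hr.ne') with hT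
  have hTa : ∀ x, T x = r⁻¹ • x := fun x => rfl
  refine ⟨max 1 (r⁻¹ * R), le_max_left _ _, T, ?_, ?_⟩
  · intro x hx
    refine ⟨r • x, h1 ?_, ?_⟩
    · rw [mem_closedBall_zero_iff] at hx ⊢
      rw [norm_smul, Real.norm_eq_abs, abs_of_pos hr]
      nlinarith
    · rw [hTa, smul_smul, inv_mul_cancel₀ hr.ne', one_smul]
  · rw [smul_ball _ (lt_of_lt_of_le one_pos (le_max_left _ _))]
    rintro _ ⟨x, hx, rfl⟩
    have h3 := h2 hx
    rw [mem_closedBall_zero_iff] at h3 ⊢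
    rw [hTa, norm_smul, norm_inv, Real.norm_eq_abs, abs_of_pos hr]
    refine le_trans ?_ (le_max_right _ _)
    exact mul_le_mul_of_nonneg_left h3 (inv_pos.2 hr).le

theorem one_le_bm {n : ℕ} (K : Set (E n)) (hK : Body K) : 1 ≤ bm K (closedBall 0 1) :=
  le_csInf (adm_nonempty K hK) fun _ h => h.1

/-- The intersection body of the ball is a ball. -/
theorem IB_ball {N : ℕ} (hN : 1 ≤ N) (κ : ℝ) (hκ0 : 0 < κ)
    (hκ : ∀ x : E (N + 1), x ≠ 0 → ∀ r : ℝ, 0 ≤ r → A (closedBall 0 r) x = κ * r ^ N / ‖x‖) :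
    IB (closedBall (0 : E (N + 1)) 1) = κ • closedBall 0 1 := by
  obtain ⟨hIB, hg⟩ := IBB hN (closedBall 0 1) ball_body
  rw [smul_ball κ hκ0]
  ext x
  rw [← (GB _ hIB).2.1 x, mem_closedBall_zero_iff]
  by_cases hx : x = 0
  · subst hx
    simp [hκ0.le]
  · rw [hg x hx, hκ x hx 1 zero_le_one, one_pow, mul_one, inv_div, div_le_one hκ0]

theorem bm_IB_le {N : ℕ} (hN : 1 ≤ N) (K : Set (E (N + 1))) (hK : Body K) :
    bm (IB K) (closedBall 0 1) ≤ bm K (closedBall 0 1) ^ N := by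
  obtain ⟨κ, hκ0, hκ⟩ := BALL (N := N)
  have hball := IB_ball hN κ hκ0 hκ
  have hmem : ∀ l ∈ Adm K, l ^ N ∈ Adm (IB K) := by
    rintro l ⟨hl, T, h1, h2⟩
    have hl0 : 0 < l := by linarith
    have hTK : Body (T '' K) := ((GS K hK).2 T).1
    obtain ⟨S, hS, -⟩ := (ICOV hN K hK).1 T
    have hlB : Body (l • closedBall (0 : E (N + 1)) 1) := ((GS _ ball_body).1 l hl0).1
    have h3 := (ICOV hN (closedBall 0 1) ball_body).2.2 (T '' K) hTK h1
    have h4 := (ICOV hN (T '' K) hTK).2.2 _ hlB h2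
    rw [(ICOV hN (closedBall 0 1) ball_body).2.1 l hl0] at h4
    rw [hball, hS] at h3
    rw [hball, hS] at h4
    set R : E (N + 1) ≃ₗ[ℝ] E (N + 1) :=
      LinearEquiv.smulOfNeZero ℝ (E (N + 1)) κ⁻¹ (inv_ne_zero hκ0.ne') with hR
    have hRa : ∀ x, R x = κ⁻¹ • x := fun x => rfl
    refine ⟨one_le_pow₀ hl, S.trans R, ?_, ?_⟩
    · intro x hx
      obtain ⟨z, hz, hz'⟩ := h3 (smul_mem_smul_set (a := κ) hx)
      refine ⟨z, hz, ?_⟩
      rw [LinearEquiv.trans_apply, hz', hRa, smul_smul, inv_mul_cancel₀ hκ0.ne', one_smul]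
    · rintro _ ⟨z, hz, rfl⟩
      obtain ⟨w, hw, hw'⟩ := h4 (mem_image_of_mem S hz)
      obtain ⟨w', hw1, rfl⟩ := hw
      rw [LinearEquiv.trans_apply, ← hw', hRa]
      refine ⟨w', hw1, ?_⟩
      show l ^ N • w' = κ⁻¹ • l ^ N • κ • w'
      rw [smul_smul, smul_smul]
      congr 1
      field_simp
  by_contra hlt
  push Not at hlt
  have hN0 : (N : ℝ) ≠ 0 := by
    have : N ≠ 0 := by omega
    exact_mod_cast this
  have hb0 : 0 ≤ bm K (closedBall 0 1) := zero_le_one.trans (one_le_bm K hK)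
  have hB0 : 0 ≤ bm (IB K) (closedBall 0 1) := le_trans (pow_nonneg hb0 N) hlt.le
  set r : ℝ := bm (IB K) (closedBall 0 1) ^ ((N : ℝ)⁻¹) with hr
  have hr0 : 0 ≤ r := Real.rpow_nonneg hB0 _
  have hrN : r ^ N = bm (IB K) (closedBall 0 1) := by
    rw [hr, Real.rpow_inv_natCast_pow hB0 (by omega)]
  have hlt2 : bm K (closedBall 0 1) < r := by
    rw [← hrN] at hlt
    exact lt_of_pow_lt_pow_left₀ N hr0 hlt
  rw [bm_def] at hlt2
  obtain ⟨l, hl, hlr⟩ := exists_lt_of_csInf_lt (adm_nonempty K hK) hlt2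
  have h5 : bm (IB K) (closedBall 0 1) ≤ l ^ N := csInf_le (bdd _) (hmem l hl)
  have h6 : l ^ N < r ^ N := pow_lt_pow_left₀ hlr (zero_le_one.trans hl.1) (by omega)
  rw [hrN] at h6
  linarith

theorem exists_increase {N : ℕ} (hN : 1 ≤ N) (c : ℝ) (hc : c < N) (δ : ℝ) (hδ : 0 < δ) :
    ∃ K : Set (E (N + 1)), Body K ∧ bm K (closedBall 0 1) ≤ 1 + δ ∧
      bm K (closedBall 0 1) ^ c < bm (IB K) (closedBall 0 1) := by
  obtain ⟨κ, hκ0, hκ⟩ := BALL (N := N)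
  have hN0 : (0 : ℝ) < N := by exact_mod_cast hN
  obtain ⟨s, t, η, hs, ht, hη, hst, hev⟩ :=
    calc_lemma N hN (max c 0) (le_max_right _ _) (max_lt hc hN0)
  set v : E N := EuclideanSpace.single (⟨0, by omega⟩ : Fin N) t with hv
  have hvn : ‖v‖ = t := by
    rw [hv, PiLp.norm_single, Real.norm_eq_abs, abs_of_pos ht]
  have hv0 : v ≠ 0 := by
    intro h
    rw [h, norm_zero] at hvn
    linarith
  have htend : Tendsto (fun l : ℝ => Real.sqrt (l ^ 2 - 1)) (𝓝[>] 1) (𝓝[>] 0) := by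
    refine tendsto_nhdsWithin_iff.2 ⟨?_, ?_⟩
    · have h : Continuous fun l : ℝ => Real.sqrt (l ^ 2 - 1) := by fun_prop
      have h2 := (h.tendsto 1).mono_left (nhdsWithin_le_nhds (s := Ioi (1 : ℝ)))
      simpa using h2
    · filter_upwards [self_mem_nhdsWithin] with l hl
      have hl' : (1 : ℝ) < l := hl
      exact Real.sqrt_pos.2 (by nlinarith)
  have hcone := ((cone_tendsto v hv0).comp htend).eventually (gt_mem_nhds (mul_pos hκ0 hη))
  have hclose : ∀ᶠ l : ℝ in 𝓝[>] 1, l < 1 + δ :=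
    nhdsWithin_le_nhds (gt_mem_nhds (by linarith))
  obtain ⟨l, hF, hco, hlδ, hl1⟩ :=
    (hev.and (hcone.and (hclose.and self_mem_nhdsWithin))).exists
  have hl1' : (1 : ℝ) < l := hl1
  have hl0 : 0 < l := by linarith
  have hK := body_Kb (N := N) l hl1'.le
  have hbK : bm (Kb l : Set (E (N + 1))) (closedBall 0 1) ≤ l := by
    refine csInf_le (bdd _) ⟨hl1'.le, LinearEquiv.refl ℝ _, ?_, ?_⟩
    · intro x hx
      exact ⟨x, ball_sub l hx, rfl⟩
    · rw [smul_ball l hl0]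
      rintro _ ⟨x, hx, rfl⟩
      exact sub_ball l hl1'.le hx
  have hb1 := one_le_bm (Kb l : Set (E (N + 1))) hK
  refine ⟨Kb l, hK, hbK.trans hlδ.le, ?_⟩
  have hw : l⁻¹ ≤ l := by
    rw [inv_le_iff_one_le_mul₀ hl0]
    nlinarith
  have hd : 0 ≤ l ^ N - l⁻¹ ^ N := sub_nonneg.2 (pow_le_pow_left₀ (inv_pos.2 hl0).le hw N)
  have hnorm : ∀ w : E N, ‖w‖ = t → κ / ‖mk 1 w‖ = κ * s := by
    intro w hw
    have h1 := norm_mk_sq 1 w
    rw [hw] at h1
    have h2 : 0 < ‖mk 1 w‖ := norm_pos_iff.2 (mk_one_ne w)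
    have h3 : (s * ‖mk 1 w‖) ^ 2 = 1 := by
      rw [mul_pow, h1, one_pow]
      exact hst
    have h4 : s * ‖mk 1 w‖ = 1 := by
      have h5 : 0 < s * ‖mk 1 w‖ := mul_pos hs h2
      nlinarith
    rw [div_eq_iff h2.ne', mul_assoc, h4, mul_one]
  set U : ℝ := κ * (s + (l ^ N - l⁻¹ ^ N) * η) with hU
  have hU0 : 0 < U := by
    rw [hU]
    have : 0 ≤ (l ^ N - l⁻¹ ^ N) * η := mul_nonneg hd hη.le
    exact mul_pos hκ0 (by linarith)
  have hco' : (volume (cone v (Real.sqrt (l ^ 2 - 1)))).toReal ≤ κ * η := by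
    have h : (volume (cone v (Real.sqrt (l ^ 2 - 1)))).toReal < κ * η := hco
    exact h.le
  have hUv : A (Kb l) (mk 1 v) ≤ U := by
    refine (tilted κ hκ l hl1'.le v).trans ?_
    rw [hnorm v hvn, hU, mul_add]
    refine add_le_add_right ?_ _
    have := mul_le_mul_of_nonneg_left hco' hd
    linarith
  have hUv' : A (Kb l) (mk 1 (-v)) ≤ U := by
    refine (tilted κ hκ l hl1'.le (-v)).trans ?_
    rw [hnorm (-v) (by rw [norm_neg, hvn]), hU, mul_add, cone_neg]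
    refine add_le_add_right ?_ _
    have := mul_le_mul_of_nonneg_left hco' hd
    linarith
  set c' : ℝ := max c 0 with hc'
  set F : ℝ := (s + (l ^ N - l⁻¹ ^ N) * η) ^ 2 * ((l⁻¹ ^ N) ^ 2 + t ^ 2) with hFd
  have hF0 : 0 < F := by
    rw [hFd]
    have : 0 ≤ (l ^ N - l⁻¹ ^ N) * η := mul_nonneg hd hη.le
    have h2 : 0 < s + (l ^ N - l⁻¹ ^ N) * η := by linarith
    positivity
  have hkey : ∀ L ∈ Adm (IB (Kb l : Set (E (N + 1)))), 1 ≤ L ^ 2 * F := by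
    rintro L ⟨hL, T, h1, h2⟩
    have h3 := lower hN κ hκ0 hκ l hl1'.le v hv0 U hUv hUv' L hL T h1 h2
    rw [hvn] at h3
    have h4 : L ^ 2 * (((κ * l ^ N)⁻¹) ^ 2 + (t / κ) ^ 2) * U ^ 2 = L ^ 2 * F := by
      have e1 : (κ * l ^ N)⁻¹ = κ⁻¹ * l⁻¹ ^ N := by rw [mul_inv, inv_pow]
      have e2 : κ⁻¹ * κ = 1 := inv_mul_cancel₀ hκ0.ne'
      rw [hU, hFd, e1, div_eq_mul_inv t κ]
      generalize l⁻¹ ^ N = p
      generalize l ^ N = q
      have e3 : L ^ 2 * ((κ⁻¹ * p) ^ 2 + (t * κ⁻¹) ^ 2) * (κ * (s + (q - p) * η)) ^ 2 =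
          L ^ 2 * ((s + (q - p) * η) ^ 2 * (p ^ 2 + t ^ 2)) * (κ⁻¹ * κ) ^ 2 := by ring
      rw [e3, e2, one_pow, mul_one]
    have h5 : (U⁻¹) ^ 2 * U ^ 2 = 1 := by
      rw [← mul_pow, inv_mul_cancel₀ hU0.ne', one_pow]
    have h6 := mul_le_mul_of_nonneg_right h3 (sq_nonneg U)
    rw [h4, h5] at h6
    exact h6
  have hlam : Real.sqrt (1 / F) ≤ bm (IB (Kb l : Set (E (N + 1)))) (closedBall 0 1) := by
    refine le_csInf (adm_nonempty _ (IBB hN _ hK).1) fun L hL => ?_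
    have h3 := hkey L hL
    refine Real.sqrt_le_iff.2 ⟨zero_le_one.trans hL.1, ?_⟩
    rw [div_le_iff₀ hF0]
    exact h3
  refine lt_of_lt_of_le ?_ hlam
  have h7 : bm (Kb l : Set (E (N + 1))) (closedBall 0 1) ^ c ≤ l ^ c' := by
    refine (Real.rpow_le_rpow_of_exponent_le hb1 (le_max_left c 0)).trans ?_
    exact Real.rpow_le_rpow (zero_le_one.trans hb1) hbK (le_max_right c 0)
  refine lt_of_le_of_lt h7 ?_
  rw [Real.lt_sqrt (Real.rpow_nonneg hl0.le _), lt_div_iff₀ hF0]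
  have h8 : (l ^ c') ^ 2 = l ^ (2 * c') := by
    rw [← Real.rpow_natCast, ← Real.rpow_mul hl0.le]
    congr 1
    push_cast
    ring
  rw [h8]
  exact hF

end Pool.Agent.X88.BM
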