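import Pool.Agent.X88.BM.Base
import Pool.Agent.X88.BM.Kb

/-! Sections of the body `Kb`. -/

set_option autoImplicit false

open MeasureTheory Set Filter Topology Metric
open scoped Pointwise RealInnerProductSpace ENNReal

open Pool.Agent.H638.IB

namespace Pool.Agent.X88.BM

/-- The part of the unit ball near the hyperplane `v^⊥` (a cone). -/
def cone {N : ℕ} (v : E N) (b : ℝ) : Set (E N) := closedBall 0 1 ∩ {y | |⟪v, y⟫| ≤ b * ‖y‖}

theorem isClosed_cone {N : ℕ} (v : E N) (b : ℝ) : IsClosed (cone v b) :=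
  isClosed_closedBall.inter (isClosed_le (by fun_prop) (by fun_prop))

theorem cone_lt_top {N : ℕ} (v : E N) (b : ℝ) : volume (cone v b) ≠ ∞ :=
  ne_top_of_le_ne_top (isCompact_closedBall (0 : E N) 1).measure_lt_top.ne
    (measure_mono inter_subset_left)

/-- Dilates of the cone. -/
theorem smul_cone {N : ℕ} (v : E N) (b c : ℝ) (hc : 0 < c) :
    {y : E N | ‖y‖ ≤ c ∧ |⟪v, y⟫| ≤ b * ‖y‖} = c • cone v b := by
  ext y
  rw [mem_smul_set_iff_inv_smul_mem₀ hc.ne']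
  simp only [cone, mem_inter_iff, mem_closedBall_zero_iff, Set.mem_ofPred_eq, norm_smul, norm_inv,
    Real.norm_eq_abs, abs_of_pos hc, inner_smul_right, abs_mul, abs_inv]
  constructor
  · rintro ⟨h1, h2⟩
    refine ⟨?_, ?_⟩
    · rw [inv_mul_le_iff₀ hc]
      linarith
    · have := mul_le_mul_of_nonneg_left h2 (inv_pos.2 hc).le
      nlinarith
  · rintro ⟨h1, h2⟩
    rw [inv_mul_le_iff₀ hc] at h1
    refine ⟨by linarith, ?_⟩
    have h3 := mul_le_mul_of_nonneg_left h2 hc.le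
    have h4 : c * (c⁻¹ * |⟪v, y⟫|) = |⟪v, y⟫| := by field_simp
    have h5 : c * (b * (c⁻¹ * ‖y‖)) = b * ‖y‖ := by field_simp
    linarith

/-- The volume of the part of the cone in the shell `a < ‖y‖ ≤ c`. -/
theorem shell {N : ℕ} (v : E N) (b a c : ℝ) (ha : 0 < a) (hac : a ≤ c) :
    volume {y : E N | a < ‖y‖ ∧ ‖y‖ ≤ c ∧ |⟪v, y⟫| ≤ b * ‖y‖} ≤
      ENNReal.ofReal ((c ^ N - a ^ N) * (volume (cone v b)).toReal) := by
  have hc : 0 < c := lt_of_lt_of_le ha hac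
  have h1 : {y : E N | a < ‖y‖ ∧ ‖y‖ ≤ c ∧ |⟪v, y⟫| ≤ b * ‖y‖} ⊆
      (c • cone v b) \ (a • cone v b) := by
    rw [← smul_cone v b c hc, ← smul_cone v b a ha]
    rintro y ⟨h1, h2, h3⟩
    exact ⟨⟨h2, h3⟩, fun h => by linarith [h.1]⟩
  have h2 : a • cone v b ⊆ c • cone v b := by
    rw [← smul_cone v b c hc, ← smul_cone v b a ha]
    rintro y ⟨h1, h2⟩
    exact ⟨h1.trans hac, h2⟩
  have hv : ∀ r : ℝ, 0 < r → volume (r • cone v b) =
      ENNReal.ofReal (r ^ N * (volume (cone v b)).toReal) := by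
    intro r hr
    rw [Measure.addHaar_smul, finrank_euclideanSpace_fin, ENNReal.ofReal_mul (by positivity),
      ENNReal.ofReal_toReal (cone_lt_top v b), abs_of_pos (by positivity)]
  refine (measure_mono h1).trans ?_
  rw [measure_sdiff h2 ?_ ?_, hv c hc, hv a ha, ← ENNReal.ofReal_sub]
  · refine ENNReal.ofReal_le_ofReal ?_
    rw [sub_mul]
  · positivity
  · rw [← smul_cone v b a ha]
    have hcl : IsClosed ({y : E N | ‖y‖ ≤ a} ∩ {y : E N | |⟪v, y⟫| ≤ b * ‖y‖}) :=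
      (isClosed_le continuous_norm continuous_const).inter
        (isClosed_le (by fun_prop) (by fun_prop))
    exact hcl.measurableSet.nullMeasurableSet
  · rw [hv a ha]
    exact ENNReal.ofReal_ne_top

/-- The volume of the cones tends to zero. -/
theorem cone_tendsto {N : ℕ} (v : E N) (hv : v ≠ 0) :
    Tendsto (fun b : ℝ => (volume (cone v b)).toReal) (𝓝[>] 0) (𝓝 0) := by
  have h0 : volume (⋂ b > (0 : ℝ), cone v b) = 0 := by
    have hsub : (⋂ b > (0 : ℝ), cone v b) ⊆ {y : E N | ⟪v, y⟫ = 0} := by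
      intro y hy
      simp only [mem_iInter] at hy
      have h1 : |(⟪v, y⟫ : ℝ)| ≤ 0 := by
        refine le_of_forall_pos_le_add fun ε hε => ?_
        have h2 := hy ε hε
        have h3 : |(⟪v, y⟫ : ℝ)| ≤ ε * ‖y‖ := h2.2
        have h4 : ‖y‖ ≤ 1 := by simpa using h2.1
        nlinarith [norm_nonneg y]
      exact abs_eq_zero.1 (le_antisymm h1 (abs_nonneg _))
    have h2 : volume {y : E N | ⟪v, y⟫ = 0} = 0 := by
      have h3 : {y : E N | ⟪v, y⟫ = 0} = ((ℝ ∙ v)ᗮ : Submodule ℝ (E N)) := by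
        ext y
        simp only [Set.mem_ofPred_eq, SetLike.mem_coe, Submodule.mem_orthogonal_singleton_iff_inner_right]
      rw [h3]
      refine Measure.addHaar_submodule _ _ ?_
      intro h
      have h4 : v ∈ ((ℝ ∙ v)ᗮ : Submodule ℝ (E N)) := by
        rw [h]
        trivial
      rw [Submodule.mem_orthogonal_singleton_iff_inner_right] at h4
      exact hv (inner_self_eq_zero.1 h4)
    exact measure_mono_null hsub h2
  have h1 : Tendsto (volume ∘ fun b : ℝ => cone v b) (𝓝[>] 0)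
      (𝓝 (volume (⋂ b > (0 : ℝ), cone v b))) := by
    refine tendsto_measure_biInter_gt (fun b _ => (isClosed_cone v b).nullMeasurableSet) ?_ ?_
    · rintro i j - hij y ⟨h1, h2⟩
      have h2' : |(⟪v, y⟫ : ℝ)| ≤ i * ‖y‖ := h2
      have h3 : |(⟪v, y⟫ : ℝ)| ≤ j * ‖y‖ :=
        h2'.trans (mul_le_mul_of_nonneg_right hij (norm_nonneg _))
      exact ⟨h1, h3⟩
    · exact ⟨1, one_pos, cone_lt_top v 1⟩
  rw [h0] at h1
  have h2 := (ENNReal.continuousAt_toReal ENNReal.zero_ne_top).tendsto.comp h1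
  rw [ENNReal.toReal_zero] at h2
  exact h2

/-- The tilted sections. -/
theorem tilted {N : ℕ} (κ : ℝ) (hκ : ∀ x : E (N + 1), x ≠ 0 → ∀ r : ℝ, 0 ≤ r →
    A (closedBall 0 r) x = κ * r ^ N / ‖x‖) (l : ℝ) (hl : 1 ≤ l) (v : E N) :
    A (Kb l) (mk 1 v) ≤ κ / ‖mk 1 v‖ +
      (l ^ N - l⁻¹ ^ N) * (volume (cone v (Real.sqrt (l ^ 2 - 1)))).toReal := by
  have hl0 : 0 < l := by linarith
  have hinv : l⁻¹ ≤ l := by
    rw [inv_le_iff_one_le_mul₀ hl0]
    nlinarith
  have h1 : A (closedBall 0 1) (mk 1 v) = κ / ‖mk 1 v‖ := by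
    rw [hκ _ (mk_one_ne v) 1 zero_le_one]
    simp
  rw [← h1, HSEC (Kb l) (body_Kb l hl) v, HSEC (closedBall 0 1) ball_body v]
  have hsub : {y : E N | mk (-⟪v, y⟫) y ∈ Kb l} ⊆
      {y : E N | mk (-⟪v, y⟫) y ∈ closedBall (0 : E (N + 1)) 1} ∪
      {y : E N | l⁻¹ < ‖y‖ ∧ ‖y‖ ≤ l ∧ |⟪v, y⟫| ≤ Real.sqrt (l ^ 2 - 1) * ‖y‖} := by
    intro y hy
    by_cases h : ‖mk (-⟪v, y⟫) y‖ ≤ 1
    · left
      simpa using h
    · right
      exact outside l hl v y hy (not_le.1 h)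
  have hfin : volume {y : E N | mk (-⟪v, y⟫) y ∈ closedBall (0 : E (N + 1)) 1} ≠ ∞ := by
    refine ne_top_of_le_ne_top (isCompact_closedBall (0 : E N) 1).measure_lt_top.ne
      (measure_mono ?_)
    intro y hy
    have h2 : ‖mk (-⟪v, y⟫) y‖ ≤ 1 := by simpa using hy
    simpa using (norm_le_mk _ _).trans h2
  have hnn : 0 ≤ (l ^ N - l⁻¹ ^ N) * (volume (cone v (Real.sqrt (l ^ 2 - 1)))).toReal := by
    refine mul_nonneg (sub_nonneg.2 ?_) ENNReal.toReal_nonneg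
    exact pow_le_pow_left₀ (inv_pos.2 hl0).le hinv N
  have h3 := (measure_mono hsub).trans (measure_union_le (μ := volume) _ _)
  have h4 := shell v (Real.sqrt (l ^ 2 - 1)) l⁻¹ l (inv_pos.2 hl0) hinv
  have h5 := h3.trans (add_le_add_right h4 _)
  have h6 := ENNReal.toReal_mono (ENNReal.add_ne_top.2 ⟨hfin, ENNReal.ofReal_ne_top⟩) h5
  rw [ENNReal.toReal_add hfin ENNReal.ofReal_ne_top, ENNReal.toReal_ofReal hnn] at h6
  exact h6

/-- The equatorial section. -/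
theorem equator {N : ℕ} (κ : ℝ) (hκ : ∀ x : E (N + 1), x ≠ 0 → ∀ r : ℝ, 0 ≤ r →
    A (closedBall 0 r) x = κ * r ^ N / ‖x‖) (l : ℝ) (hl : 1 ≤ l) :
    A (Kb l) (mk 1 (0 : E N)) = κ * l ^ N := by
  have hl0 : 0 < l := by linarith
  have hb : Body (closedBall (0 : E (N + 1)) l) := by
    rw [← smul_ball l hl0]
    exact ((GS _ ball_body).1 l hl0).1
  have h1 : A (closedBall 0 l) (mk 1 (0 : E N)) = κ * l ^ N := by
    rw [hκ _ (mk_one_ne 0) l hl0.le]
    have : ‖mk 1 (0 : E N)‖ = 1 := by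
      have h := norm_mk_sq 1 (0 : E N)
      have h2 : ‖mk 1 (0 : E N)‖ ^ 2 = 1 := by rw [h]; simp
      nlinarith [norm_nonneg (mk 1 (0 : E N))]
    rw [this, div_one]
  rw [← h1, HSEC (Kb l) (body_Kb l hl) 0, HSEC (closedBall 0 l) hb 0]
  congr 2
  ext y
  simp only [inner_zero_left, neg_zero, Set.mem_ofPred_eq]
  constructor
  · intro h
    exact sub_ball l hl h
  · intro h
    rw [mem_closedBall_zero_iff, norm_mk_zero] at h
    exact disc l y h

end Pool.Agent.X88.BM
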